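import Pool.Agent.Helper473.LY.FinalH

/-!
# Harmonic homeomorphisms between closed negatively curved manifolds need not be diffeomorphisms

For every `n ≥ 3` there are closed `n`-dimensional Riemannian manifolds `N`, `M` with negative
sectional curvature and a harmonic homeomorphism `f : N → M` which is not a diffeomorphism.
-/

set_option autoImplicit false

namespace Pool.Agent.Results.MP_0fcc57_gt.HarmonicHomeoFalse

theorem result : ∀ n : ℕ, 3 ≤ n → ¬ Pool.Agent.Helper473.LY.HarmHomeo n :=
  Pool.Agent.Helper473.LY.not_harmHomeo

end Pool.Agent.Results.MP_0fcc57_gt.HarmonicHomeoFalse
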